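import Mathlib
import Pool.Agent.TH418.OC.Core

set_option autoImplicit false

/-!
# Every orientation of every odd cycle is avoidable

This answers Q1 of MP_fac9f6_co in the affirmative.

Sketch of the proof. Fix `n` and `k`. It is enough to find, for each `p ≤ n`, inside every digraph
`D` of large minimum out-degree a spanning subdigraph of minimum out-degree at least `k` together
with a colouring of the vertices with four colours such that the end of every directed walk of
length `p` has a colour different from its start (`Pool.Agent.TH418.OC.colour`). Given such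
colourings, pass to a spanning subdigraph in which the tuple of colours of the ends of the directed
walks of length `i` from `x` depends only on `x` and `i ≤ 3n` (the type of `x`); then a closed
walk of length at most `n` and net length `h ≠ 0` forces vertices joined by a directed walk of length
`|h|` to have the same colour, a contradiction. The colouring is found by ordering the vertices by
a degeneracy argument, thinning out the digraph in `p - 1` stages with the local lemma so that the
ends of all walks of length `p` from a vertex lie on one side of it in the order, and colouring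
greedily along the order.
-/

namespace Pool.Agent.Results.MP_fac9f6_co.OddCyclesAvoidable

/-- A digraph: a set `verts` of vertices (inside a type `V`) and arcs `Arc x y` between vertices,
without loops. There are no parallel arcs, and both `(x, y)` and `(y, x)` may be arcs. -/
structure DG (V : Type) where
  /-- the vertex set -/
  verts : Set V
  /-- the arcs -/
  Arc : V → V → Prop
  arc_mem : ∀ x y, Arc x y → x ∈ verts ∧ y ∈ verts
  loopless : ∀ x, ¬ Arc x x

/-- `H` is a subdigraph of `D`: `V(H) ⊆ V(D)` and `A(H) ⊆ A(D)`. -/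
def DG.IsSub {V : Type} (H D : DG V) : Prop :=
  H.verts ⊆ D.verts ∧ ∀ x y, H.Arc x y → D.Arc x y

/-- The digraphs `F` and `H` are isomorphic. -/
def DG.IsoTo {W V : Type} (F : DG W) (H : DG V) : Prop :=
  ∃ e : F.verts ≃ H.verts, ∀ x y : F.verts, F.Arc x y ↔ H.Arc (e x) (e y)

/-- `D` is `F`-free: no subdigraph of `D` is isomorphic to `F`. -/
def DG.IsFree {V W : Type} (D : DG V) (F : DG W) : Prop :=
  ∀ H : DG V, H.IsSub D → ¬ F.IsoTo H

/-- The out-degree of `x` in `D`: the number of `y` such that `(x, y)` is an arc. -/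
noncomputable def DG.outDeg {V : Type} (D : DG V) (x : V) : ℕ := {y | D.Arc x y}.ncard

/-- All out-degrees of vertices of `D` are at least `k`; for `D` finite and non-empty this says
that the minimum out-degree of `D` is at least `k`. -/
def DG.MinOutDegGe {V : Type} (D : DG V) (k : ℕ) : Prop := ∀ x ∈ D.verts, k ≤ D.outDeg x

/-- `F` is avoidable: there is a function `dF : ℕ → ℕ` such that for every `k`, every finite
(non-empty) digraph with minimum out-degree at least `dF k` contains a non-empty `F`-free
subdigraph with minimum out-degree at least `k`. -/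
def Avoidable {W : Type} (F : DG W) : Prop :=
  ∃ dF : ℕ → ℕ, ∀ k : ℕ, ∀ (V : Type) (D : DG V), D.verts.Finite → D.verts.Nonempty →
    D.MinOutDegGe (dF k) →
      ∃ D' : DG V, D'.IsSub D ∧ D'.verts.Nonempty ∧ D'.IsFree F ∧ D'.MinOutDegGe k

/-- `F` is an orientation of the cycle `C_n` on the vertex set `Fin n`: it has all `n` vertices,
arcs join only vertices adjacent in `C_n`, and every edge of `C_n` gets exactly one of its two
directions. -/
def IsOrientationOfCycle {n : ℕ} (F : DG (Fin n)) : Prop :=
  F.verts = Set.univ ∧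
    (∀ i j, F.Arc i j → (SimpleGraph.cycleGraph n).Adj i j) ∧
    (∀ i j, (SimpleGraph.cycleGraph n).Adj i j →
      (F.Arc i j ∧ ¬ F.Arc j i) ∨ (F.Arc j i ∧ ¬ F.Arc i j))

open Classical in
/-- Every orientation of every odd cycle is avoidable. -/
theorem result : ∀ n : ℕ, 3 ≤ n → Odd n → ∀ F : DG (Fin n), IsOrientationOfCycle F →
    Avoidable F := by
  intro n hn hodd F hF
  choose dF hdF using fun k => Pool.Agent.TH418.OC.core n k
  refine ⟨dF, fun k V D hfin hne hdeg => ?_⟩
  obtain ⟨m, rfl⟩ : ∃ m, n = m + 2 := ⟨n - 2, by omega⟩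
  have : Fintype D.verts := hfin.fintype
  obtain ⟨N, hN⟩ : ∃ N : D.verts → Finset D.verts,
      ∀ x y, y ∈ N x ↔ D.Arc x y :=
    ⟨fun x => Finset.univ.filter (fun y : D.verts => D.Arc x y), fun x y => by simp⟩
  obtain ⟨N', hsub, hcard, hbal⟩ := hdF k D.verts N
    (fun v hv => D.loopless v ((hN v v).1 hv))
    (by
      intro v
      have h1 := hdeg v v.2
      have h2 : {y | D.Arc v y} = Subtype.val '' (N v : Set D.verts) := by
        ext y
        constructor
        · intro hy
          exact ⟨⟨y, (D.arc_mem _ _ hy).2⟩, (hN v _).2 hy, rfl⟩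
        · rintro ⟨z, hz, rfl⟩
          exact (hN v z).1 hz
      rw [DG.outDeg, h2, Set.ncard_image_of_injective _ Subtype.val_injective,
        Set.ncard_coe_finset] at h1
      exact h1)
  refine ⟨⟨D.verts, fun x y => ∃ (hx : x ∈ D.verts) (hy : y ∈ D.verts),
    (⟨y, hy⟩ : D.verts) ∈ N' ⟨x, hx⟩, fun x y h => ⟨h.1, h.2.1⟩, ?_⟩, ⟨subset_rfl, ?_⟩, hne, ?_, ?_⟩
  · rintro x ⟨hx, _, h⟩
    exact D.loopless x ((hN _ _).1 (hsub _ h))
  · rintro x y ⟨hx, hy, h⟩
    exact (hN _ _).1 (hsub _ h)
  · rintro H ⟨-, hH⟩ ⟨e, he⟩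
    obtain ⟨hFv, hFa, hFx⟩ := hF
    have hmem : ∀ i : Fin (m + 2), i ∈ F.verts := fun i => by rw [hFv]; exact Set.mem_univ i
    -- arcs of `F` give arcs of the subdigraph
    have harc : ∀ i j, F.Arc i j → ∃ (hx : (e ⟨i, hmem i⟩ : V) ∈ D.verts)
        (hy : (e ⟨j, hmem j⟩ : V) ∈ D.verts),
        (⟨(e ⟨j, hmem j⟩ : V), hy⟩ : D.verts) ∈ N' ⟨(e ⟨i, hmem i⟩ : V), hx⟩ := by
      intro i j hij
      exact hH _ _ ((he ⟨i, hmem i⟩ ⟨j, hmem j⟩).1 hij)
    obtain ⟨q, hq⟩ : ∃ q : ℕ → Fin (m + 2), ∀ j, (q j).val = j % (m + 2) :=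
      ⟨fun j => ⟨j % (m + 2), Nat.mod_lt _ (by omega)⟩, fun j => rfl⟩
    have hq1 : ∀ j, q (j + 1) = q j + 1 := by
      intro j
      apply Fin.ext
      rw [Fin.val_add, hq, hq, Fin.val_one, Nat.mod_add_mod]
    have hadj : ∀ j : ℕ, (SimpleGraph.cycleGraph (m + 2)).Adj (q j) (q (j + 1)) := by
      intro j
      rw [SimpleGraph.cycleGraph_adj, hq1]
      right
      exact add_sub_cancel_left _ _
    have hv : ∀ i, (e ⟨i, hmem i⟩ : V) ∈ D.verts := by
      intro i
      rcases hFx i (i + 1) (by rw [SimpleGraph.cycleGraph_adj]; right; exact add_sub_cancel_left _ _) with h | h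
      · exact (harc _ _ h.1).1
      · exact (harc _ _ h.1).2.1
    obtain ⟨c, hc⟩ : ∃ c : ℕ → ℤ, ∀ j, c j =
        if F.Arc (q j) (q (j + 1)) then 1 else -1 :=
      ⟨_, fun j => rfl⟩
    have hpar : ∀ l : ℕ, (∑ i ∈ Finset.range l, c i) % 2 = (l : ℤ) % 2 := by
      intro l
      induction l with
      | zero => simp
      | succ l ih =>
        rw [Finset.sum_range_succ]
        push_cast
        have := hc l
        split_ifs at this <;> omega
    have h0 := hbal (m + 2) (fun j => ⟨(e ⟨q j, hmem _⟩ : V), hv _⟩)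
      (fun l => ∑ i ∈ Finset.range l, c i) le_rfl (by simp)
      (by
        intro j _
        by_cases h : F.Arc (q j) (q (j + 1))
        · left
          obtain ⟨_, _, h3⟩ := harc _ _ h
          refine ⟨h3, ?_⟩
          rw [Finset.sum_range_succ, hc j, if_pos h]
        · right
          rcases hFx _ _ (hadj j) with h' | h'
          · exact absurd h'.1 h
          · obtain ⟨_, _, h3⟩ := harc _ _ h'.1
            refine ⟨h3, ?_⟩
            rw [Finset.sum_range_succ, hc j, if_neg h]
            ring)
      (by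
        have : q (m + 2) = q 0 := Fin.ext (by rw [hq, hq, Nat.mod_self, Nat.zero_mod])
        simp only [this])
    have h1 := hpar (m + 2)
    have h2 : (∑ i ∈ Finset.range (m + 2), c i) = 0 := h0
    rw [h2] at h1
    obtain ⟨r, hr⟩ := hodd
    omega
  · intro x hx
    have hx' : x ∈ D.verts := hx
    have h2 : {y | ∃ (hx : x ∈ D.verts) (hy : y ∈ D.verts),
        (⟨y, hy⟩ : D.verts) ∈ N' ⟨x, hx⟩} = Subtype.val '' (N' ⟨x, hx'⟩ : Set D.verts) := by
      ext y
      constructor
      · rintro ⟨_, hy, h⟩
        exact ⟨⟨y, hy⟩, h, rfl⟩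
      · rintro ⟨z, hz, rfl⟩
        exact ⟨hx', z.2, hz⟩
    show k ≤ Set.ncard _
    rw [h2, Set.ncard_image_of_injective _ Subtype.val_injective, Set.ncard_coe_finset]
    exact hcard _

end Pool.Agent.Results.MP_fac9f6_co.OddCyclesAvoidable
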